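import Mathlib
import Pool.Agent.Q285.SumC

set_option autoImplicit false

/-! A sum closed class with exponentially many indecomposables and growth rate below `1+√2`. -/

namespace Pool.Agent.Results.MP_414122_co.BelowSilver

open Pool.Agent.Q285.SumC

/-- There is a sum closed permutation class `C` whose indecomposable members have upper growth
rate greater than one while the growth rate of `C` (exists and) is at most `12/5 < 1+√2`. -/
theorem result : ∃ C : Set PP, IsClass C ∧ SumClosed C ∧ 1 < upGr (ind C) ∧
    ∃ L : ℝ, Filter.Tendsto (fun n : ℕ => (cnt C n : ℝ) ^ ((1 : ℝ) / (n : ℝ))) Filter.atTop (nhds L) ∧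
      L ≤ 12 / 5 ∧ (12 / 5 : ℝ) < 1 + Real.sqrt 2 := by
  obtain ⟨L, h1, h2⟩ := growth
  refine ⟨Cst, class_Cst, sum_Cst, ind_growth.1, L, h1, h2, ?_⟩
  have h3 : (7 / 5 : ℝ) < Real.sqrt 2 := by
    apply Real.lt_sqrt_of_sq_lt
    norm_num
  linarith

end Pool.Agent.Results.MP_414122_co.BelowSilver
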